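import Pool.Agent.Helper42.LN5.FinV
import Pool.Agent.Helper93.L2.LandauLog

/-!
# LN5 (MP_730da0_ag): the derivative count

`G` a finite-valued holomorphic function on `ℂ ∖ {0, 1}` that omits `0` and `1`, of polynomial growth, `∏ G = c s^E`,
`∏ (G - 1) = c' (s - 1)^E`: then `E` is at most the number of branches.

Proof.  `|G'| ≤ C |G| (1 + |log |G||) / dist (s, {0, 1})` (Landau), the same with `1 - G`.  `D = ∏ G'` is holomorphic on `ℂ ∖ {0, 1}`
and `O (|s|^(E - N) (1 + |log |s||)^N)` at `0` and at infinity, the same in `s - 1` at `1`.  If `E > N`, then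
`D / (s (s-1))^(E - N)` extends to an entire function which tends to `0` at infinity, `D = 0`, so a branch is constant; remove it.
-/

namespace Pool.Agent.Helper42.LN5

open Filter Topology Pool.Agent.Helper93.L2

/-- The distance to `{0, 1}`. -/
noncomputable def rr (s : ℂ) : ℝ := min ‖s‖ ‖s - 1‖

theorem rr_pos {s : ℂ} (h0 : s ≠ 0) (h1 : s ≠ 1) : 0 < rr s :=
  lt_min (norm_pos_iff.2 h0) (norm_pos_iff.2 (sub_ne_zero.2 h1))

theorem ball_rr {s : ℂ} : Metric.ball s (rr s) ⊆ ({0, 1} : Set ℂ)ᶜ := by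
  intro z hz hz'
  rw [Metric.mem_ball, dist_comm, dist_eq_norm] at hz
  rcases hz' with rfl | hz'
  · rw [sub_zero] at hz
    exact absurd hz (not_lt.2 (min_le_left _ _))
  · rw [Set.mem_singleton_iff] at hz'
    subst hz'
    exact absurd hz (not_lt.2 (min_le_right _ _))

theorem mem01 {s : ℂ} : s ∈ ({0, 1} : Set ℂ)ᶜ ↔ s ≠ 0 ∧ s ≠ 1 := by
  simp [not_or]

open Classical in
/-- The product of the derivatives of the branches. -/
noncomputable def DD {N : ℕ} {V : ℂ → Multiset ℂ} (hV : FinV {0, 1} N V) (s : ℂ) : ℂ :=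
  if h : s ≠ 0 ∧ s ≠ 1 then ((hV s (rr s) (rr_pos h.1 h.2) ball_rr).choose.map fun f => deriv f s).prod else 0

variable {N : ℕ} {V : ℂ → Multiset ℂ}

theorem DD_eq (hV : FinV {0, 1} N V) {s₀ : ℂ} {r : ℝ} (hb : Metric.ball s₀ r ⊆ ({0, 1} : Set ℂ)ᶜ)
    {T : Multiset (ℂ → ℂ)} (hT : ∀ f ∈ T, DifferentiableOn ℂ f (Metric.ball s₀ r))
    (hTV : ∀ s ∈ Metric.ball s₀ r, V s = T.map (fun f => f s)) {s : ℂ} (hs : s ∈ Metric.ball s₀ r) :
    DD hV s = (T.map fun f => deriv f s).prod := by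
  have h := mem01.1 (hb hs)
  unfold DD
  rw [dif_pos h]
  obtain ⟨-, hT1, hT2⟩ := (hV s (rr s) (rr_pos h.1 h.2) ball_rr).choose_spec
  set T' := (hV s (rr s) (rr_pos h.1 h.2) ball_rr).choose
  have hU : IsOpen (Metric.ball s₀ r ∩ Metric.ball s (rr s)) := Metric.isOpen_ball.inter Metric.isOpen_ball
  have hU' : IsPreconnected (Metric.ball s₀ r ∩ Metric.ball s (rr s)) :=
    ((convex_ball s₀ r).inter (convex_ball s (rr s))).isPreconnected
  rw [map_deriv_eq hU hU' T' T (fun f hf => (hT1 f hf).mono Set.inter_subset_right)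
    (fun f hf => (hT f hf).mono Set.inter_subset_left) (fun t ht => by
      rw [← hTV t ht.1, ← hT2 t ht.2]) s ⟨hs, Metric.mem_ball_self (rr_pos h.1 h.2)⟩]

theorem DD_diff (hV : FinV {0, 1} N V) : DifferentiableOn ℂ (DD hV) ({0, 1} : Set ℂ)ᶜ := by
  intro s hs
  have h := mem01.1 hs
  obtain ⟨T, -, hT, hTV⟩ := hV s (rr s) (rr_pos h.1 h.2) ball_rr
  apply DifferentiableAt.differentiableWithinAt
  have h1 := differentiableOn_map_prod (U := Metric.ball s (rr s)) (T.map deriv) (by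
    intro f' hf'
    obtain ⟨f, hf, rfl⟩ := Multiset.mem_map.1 hf'
    exact (hT f hf).deriv Metric.isOpen_ball)
  have hnhds := Metric.isOpen_ball.mem_nhds (Metric.mem_ball_self (x := s) (rr_pos h.1 h.2))
  refine (h1.differentiableAt hnhds).congr_of_eventuallyEq ?_
  filter_upwards [hnhds] with t ht
  rw [DD_eq hV ball_rr hT hTV ht, Multiset.map_map]
  rfl

theorem prod_le {α : Type*} (M : Multiset α) (f : α → ℂ) (g : α → ℝ) (h : ∀ a ∈ M, ‖f a‖ ≤ g a) :
    ‖(M.map f).prod‖ ≤ (M.map g).prod := by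
  induction M using Multiset.induction_on with
  | empty => simp
  | cons a M ih =>
    rw [Multiset.map_cons, Multiset.map_cons, Multiset.prod_cons, Multiset.prod_cons, norm_mul]
    have h1 := h a (Multiset.mem_cons_self a M)
    exact mul_le_mul h1 (ih fun b hb => h b (Multiset.mem_cons_of_mem hb)) (norm_nonneg _)
      ((norm_nonneg _).trans h1)

theorem prod_lg (M : Multiset ℂ) (c L : ℝ) (hc : 0 ≤ c) (h : ∀ y ∈ M, |Real.log ‖y‖| ≤ L) :
    (M.map fun y => c * lg y).prod ≤ (c * (1 + L)) ^ (Multiset.card M) * ‖M.prod‖ := by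
  induction M using Multiset.induction_on with
  | empty => simp
  | cons a M ih =>
    have h1 := h a (Multiset.mem_cons_self a M)
    have h2 := ih fun b hb => h b (Multiset.mem_cons_of_mem hb)
    rw [Multiset.map_cons, Multiset.prod_cons, Multiset.prod_cons, Multiset.card_cons, pow_succ', norm_mul]
    have h3 : c * lg a ≤ c * (1 + L) * ‖a‖ := by
      unfold lg
      have : ‖a‖ * (1 + |Real.log ‖a‖|) ≤ ‖a‖ * (1 + L) :=
        mul_le_mul_of_nonneg_left (by linarith) (norm_nonneg _)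
      calc c * (‖a‖ * (1 + |Real.log ‖a‖|)) ≤ c * (‖a‖ * (1 + L)) := mul_le_mul_of_nonneg_left this hc
        _ = _ := by ring
    have h4 : 0 ≤ (M.map fun y => c * lg y).prod := by
      apply Multiset.prod_nonneg
      intro x hx
      obtain ⟨y, -, rfl⟩ := Multiset.mem_map.1 hx
      unfold lg
      positivity
    have h5 : 0 ≤ L := (abs_nonneg _).trans h1
    calc c * lg a * (M.map fun y => c * lg y).prod
        ≤ (c * (1 + L) * ‖a‖) * ((c * (1 + L)) ^ (Multiset.card M) * ‖M.prod‖) :=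
          mul_le_mul h3 h2 h4 (by positivity)
      _ = _ := by ring

/-- The logarithm grows slowly. -/
theorem log_pow_le (N : ℕ) : ∃ C : ℝ, 0 < C ∧ ∀ x : ℝ, 0 < x →
    (1 + |Real.log x|) ^ N ≤ C * (Real.sqrt x + Real.sqrt x⁻¹) := by
  rcases Nat.eq_zero_or_pos N with rfl | hN
  · refine ⟨1, one_pos, fun x hx => ?_⟩
    rw [pow_zero, one_mul]
    rcases le_total 1 x with h | h
    · have h1 : 1 ≤ Real.sqrt x := Real.one_le_sqrt.2 h
      linarith [Real.sqrt_nonneg x⁻¹]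
    · have h1 : 1 ≤ Real.sqrt x⁻¹ := Real.one_le_sqrt.2 ((one_le_inv₀ hx).2 h)
      linarith [Real.sqrt_nonneg x]
  have hN' : (0 : ℝ) < N := by exact_mod_cast hN
  have key : ∀ y : ℝ, 1 ≤ y → (1 + |Real.log y|) ^ N ≤ (1 + 2 * N) ^ N * Real.sqrt y := by
    intro y hy
    have hy0 : 0 < y := by linarith
    have h1 := Real.log_le_rpow_div hy0.le (ε := 1 / (2 * N)) (by positivity)
    have h2 : 0 ≤ Real.log y := Real.log_nonneg hy
    have h3 : 1 ≤ y ^ (1 / (2 * (N : ℝ))) := Real.one_le_rpow hy (by positivity)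
    have h4 : 1 + |Real.log y| ≤ (1 + 2 * N) * y ^ (1 / (2 * (N : ℝ))) := by
      rw [abs_of_nonneg h2]
      have h5 : y ^ (1 / (2 * (N : ℝ))) / (1 / (2 * N)) = 2 * N * y ^ (1 / (2 * (N : ℝ))) := by
        field_simp
      rw [h5] at h1
      linarith
    calc (1 + |Real.log y|) ^ N ≤ ((1 + 2 * N) * y ^ (1 / (2 * (N : ℝ)))) ^ N :=
          pow_le_pow_left₀ (by positivity) h4 N
      _ = (1 + 2 * N) ^ N * (y ^ (1 / (2 * (N : ℝ)))) ^ N := mul_pow _ _ _
      _ = (1 + 2 * N) ^ N * Real.sqrt y := by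
          rw [← Real.rpow_natCast (y ^ (1 / (2 * (N : ℝ)))) N, ← Real.rpow_mul hy0.le, Real.sqrt_eq_rpow]
          congr 2
          field_simp
  refine ⟨(1 + 2 * N) ^ N, by positivity, fun x hx => ?_⟩
  rcases le_total 1 x with h | h
  · refine (key x h).trans (mul_le_mul_of_nonneg_left ?_ (by positivity))
    linarith [Real.sqrt_nonneg x⁻¹]
  · have h1 := key x⁻¹ ((one_le_inv₀ hx).2 h)
    rw [Real.log_inv, abs_neg] at h1
    refine h1.trans (mul_le_mul_of_nonneg_left ?_ (by positivity))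
    linarith [Real.sqrt_nonneg x]

/-- Lower bound for the members of a multiset with bounded members and known product. -/
theorem log_bound (M : Multiset ℂ) (B p : ℝ) (hB : 0 ≤ B) (h0 : (0 : ℂ) ∉ M)
    (h : ∀ y ∈ M, Real.log ‖y‖ ≤ B) (hp : p ≤ Real.log ‖M.prod‖) :
    ∀ y ∈ M, |Real.log ‖y‖| ≤ B * (Multiset.card M + 1) + |p| := by
  have hsum : ∀ M : Multiset ℂ, (0 : ℂ) ∉ M → (∀ y ∈ M, Real.log ‖y‖ ≤ B) →
      Real.log ‖M.prod‖ ≤ B * Multiset.card M := by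
    intro M
    induction M using Multiset.induction_on with
    | empty => simp
    | cons a M ih =>
      intro h0 h
      rw [Multiset.prod_cons, norm_mul, Multiset.card_cons]
      have ha : a ≠ 0 := fun hh => h0 (hh ▸ Multiset.mem_cons_self a M)
      have hM : (0 : ℂ) ∉ M := fun hh => h0 (Multiset.mem_cons_of_mem hh)
      have hM' : M.prod ≠ 0 := fun hh => hM (Multiset.prod_eq_zero_iff.1 hh)
      rw [Real.log_mul (norm_ne_zero_iff.2 ha) (norm_ne_zero_iff.2 hM')]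
      have h1 := ih hM fun y hy => h y (Multiset.mem_cons_of_mem hy)
      have h2 := h a (Multiset.mem_cons_self a M)
      push_cast
      linarith
  intro y hy
  obtain ⟨M', rfl⟩ := Multiset.exists_cons_of_mem hy
  have hy0 : y ≠ 0 := fun hh => h0 (hh ▸ hy)
  have hM : (0 : ℂ) ∉ M' := fun hh => h0 (Multiset.mem_cons_of_mem hh)
  have hM' : M'.prod ≠ 0 := fun hh => hM (Multiset.prod_eq_zero_iff.1 hh)
  rw [Multiset.prod_cons, norm_mul, Real.log_mul (norm_ne_zero_iff.2 hy0) (norm_ne_zero_iff.2 hM')] at hp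
  have h1 := hsum M' hM fun z hz => h z (Multiset.mem_cons_of_mem hz)
  have h2 := h y hy
  have h3 : 0 ≤ B * Multiset.card M' := by positivity
  rw [Multiset.card_cons, abs_le]
  push_cast
  constructor
  · have := neg_abs_le p
    nlinarith
  · have := abs_nonneg p
    nlinarith

theorem DD_bound (hV : FinV {0, 1} N V) {C : ℝ} (hC : 0 < C)
    (hL : ∀ (u : ℂ → ℂ) (z₀ : ℂ) (R : ℝ), 0 < R → DifferentiableOn ℂ u (Metric.ball z₀ R) →
      (∀ z ∈ Metric.ball z₀ R, u z ≠ 0 ∧ u z ≠ 1) → ‖deriv u z₀‖ ≤ C / R * lg (u z₀))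
    (hne : ∀ s, s ≠ 0 → s ≠ 1 → (0 : ℂ) ∉ V s ∧ (1 : ℂ) ∉ V s) {s : ℂ} (h0 : s ≠ 0) (h1 : s ≠ 1) :
    (∀ L, (∀ y ∈ V s, |Real.log ‖y‖| ≤ L) → ‖DD hV s‖ ≤ (C / rr s * (1 + L)) ^ N * ‖(V s).prod‖) ∧
    (∀ L, (∀ y ∈ V s, |Real.log ‖1 - y‖| ≤ L) →
      ‖DD hV s‖ ≤ (C / rr s * (1 + L)) ^ N * ‖((V s).map fun y => 1 - y).prod‖) := by
  have hr := rr_pos h0 h1
  obtain ⟨T, hTN, hT, hTV⟩ := hV s (rr s) hr ball_rr
  have hs := Metric.mem_ball_self (x := s) hr
  have hVs : V s = T.map fun f => f s := hTV s hs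
  have hcard : Multiset.card (V s) = N := by rw [hVs, Multiset.card_map, hTN]
  have hom : ∀ f ∈ T, ∀ z ∈ Metric.ball s (rr s), f z ≠ 0 ∧ f z ≠ 1 := by
    intro f hf z hz
    have hz' := mem01.1 (ball_rr hz)
    have h2 := hne z hz'.1 hz'.2
    have h3 : f z ∈ V z := by
      rw [hTV z hz]
      exact Multiset.mem_map_of_mem (fun f => f z) hf
    exact ⟨fun h => h2.1 (h ▸ h3), fun h => h2.2 (h ▸ h3)⟩
  rw [DD_eq hV ball_rr hT hTV hs]
  constructor
  · intro L hLb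
    have h2 := prod_le T (fun f => deriv f s) (fun f => C / rr s * lg (f s)) (fun f hf =>
      hL f s (rr s) hr (hT f hf) (hom f hf))
    have h3 := prod_lg (V s) (C / rr s) L (by positivity) hLb
    rw [hcard] at h3
    refine h2.trans ?_
    have h4 : (T.map fun f => C / rr s * lg (f s)) = (V s).map fun y => C / rr s * lg y := by
      rw [hVs, Multiset.map_map]
      rfl
    rw [h4]
    exact h3
  · intro L hLb
    have h2 := prod_le T (fun f => deriv f s) (fun f => C / rr s * lg (1 - f s)) (fun f hf => by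
      have h3 := hL (fun z => 1 - f z) s (rr s) hr ((differentiableOn_const 1).sub (hT f hf)) (fun z hz => by
        have h4 := hom f hf z hz
        exact ⟨sub_ne_zero.2 (Ne.symm h4.2), fun h => h4.1 (by simpa using h)⟩)
      rwa [deriv_const_sub, norm_neg] at h3)
    have h3 := prod_lg ((V s).map fun y => 1 - y) (C / rr s) L (by positivity) (by
      intro y hy
      obtain ⟨z, hz, rfl⟩ := Multiset.mem_map.1 hy
      exact hLb z hz)
    rw [Multiset.card_map, hcard] at h3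
    refine h2.trans ?_
    have h4 : (T.map fun f => C / rr s * lg (1 - f s)) = ((V s).map fun y => 1 - y).map fun y => C / rr s * lg y := by
      rw [hVs, Multiset.map_map, Multiset.map_map]
      rfl
    rw [h4]
    exact h3

theorem log_one_add_le {x a : ℝ} (hx : 0 < x) (ha : 1 ≤ a) : Real.log (a + x) ≤ Real.log (a + 1) + |Real.log x| := by
  rcases le_total 1 x with h | h
  · have h1 : a + x ≤ (a + 1) * x := by nlinarith
    have h2 := Real.log_le_log (by positivity) h1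
    rw [Real.log_mul (by positivity) (by positivity)] at h2
    have := le_abs_self (Real.log x)
    linarith
  · have h2 := Real.log_le_log (by positivity : 0 < a + x) (by linarith : a + x ≤ a + 1)
    have := abs_nonneg (Real.log x)
    linarith

/-- The logarithms of the members are bounded by `A (1 + |log |s||)`. -/
theorem exists_log_bound (K : ℝ) (hK : 1 ≤ K) (B E N : ℕ) (c : ℂ) (hc : c ≠ 0) (a : ℝ) (ha : 1 ≤ a) :
    ∃ A : ℝ, 0 < A ∧ ∀ (x : ℝ) (s : ℂ), 0 < x → ‖s‖ = x → ∀ M : Multiset ℂ, Multiset.card M = N → (0 : ℂ) ∉ M →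
      (∀ y ∈ M, ‖y‖ ≤ 2 * K * (a + x) ^ B) → M.prod = c * s ^ E →
      ∀ y ∈ M, |Real.log ‖y‖| ≤ A * (1 + |Real.log x|) - 1 := by
  obtain ⟨b, hb⟩ : ∃ b : ℝ, b = Real.log (2 * K) + B * Real.log (a + 1) + B := ⟨_, rfl⟩
  have hlK : 0 ≤ Real.log (2 * K) := Real.log_nonneg (by linarith)
  have hla : 0 ≤ Real.log (a + 1) := Real.log_nonneg (by linarith)
  have hb0 : 0 ≤ b := by
    rw [hb]
    positivity
  refine ⟨1 + b * (N + 1) + |Real.log ‖c‖| + E, by positivity, ?_⟩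
  intro x s hx hsx M hM h0 hy hp y hyM
  have hlx := abs_nonneg (Real.log x)
  have h1 : ∀ y ∈ M, Real.log ‖y‖ ≤ b * (1 + |Real.log x|) := by
    intro y hyM
    have hy0 : y ≠ 0 := fun hh => h0 (hh ▸ hyM)
    have h2 := Real.log_le_log (norm_pos_iff.2 hy0) (hy y hyM)
    rw [Real.log_mul (by positivity) (by positivity), Real.log_pow] at h2
    have h3 := log_one_add_le hx ha
    have h4 : (B : ℝ) * Real.log (a + x) ≤ B * (Real.log (a + 1) + |Real.log x|) :=
      mul_le_mul_of_nonneg_left h3 (by positivity)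
    rw [hb]
    have h5 : 0 ≤ (Real.log (2 * K) + B * Real.log (a + 1)) * |Real.log x| := by positivity
    nlinarith
  have h2 := log_bound M (b * (1 + |Real.log x|)) (Real.log ‖c‖ + E * Real.log x) (by positivity) h0 h1 (by
    rw [hp, norm_mul, norm_pow, hsx, Real.log_mul (norm_ne_zero_iff.2 hc) (by positivity), Real.log_pow]) y hyM
  rw [hM] at h2
  have h3 : |Real.log ‖c‖ + E * Real.log x| ≤ |Real.log ‖c‖| + E * |Real.log x| := by
    refine (abs_add_le _ _).trans ?_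
    rw [abs_mul, Nat.abs_cast]
  have h4 := abs_nonneg (Real.log ‖c‖)
  have h5 : (0 : ℝ) ≤ E := by positivity
  nlinarith [mul_nonneg h4 hlx, mul_nonneg h5 hlx]

theorem DD_bound2 (hV : FinV {0, 1} N V) (hne : ∀ s, s ≠ 0 → s ≠ 1 → (0 : ℂ) ∉ V s ∧ (1 : ℂ) ∉ V s)
    (K : ℝ) (hK : 1 ≤ K) (B : ℕ) (hB : ∀ s, s ≠ 0 → s ≠ 1 → ∀ y ∈ V s, ‖y‖ ≤ K * (1 + ‖s‖) ^ B) (E : ℕ)
    (c c' : ℂ) (hc : c ≠ 0) (hc' : c' ≠ 0) (h0 : ∀ s, s ≠ 0 → s ≠ 1 → (V s).prod = c * s ^ E)
    (h1 : ∀ s, s ≠ 0 → s ≠ 1 → ((V s).map fun y => 1 - y).prod = c' * (s - 1) ^ E) :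
    ∃ C : ℝ, 0 < C ∧ ∀ s, s ≠ 0 → s ≠ 1 →
      ‖DD hV s‖ ≤ C * (‖s‖ ^ E / rr s ^ N * (Real.sqrt ‖s‖ + Real.sqrt ‖s‖⁻¹)) ∧
      ‖DD hV s‖ ≤ C * (‖s - 1‖ ^ E / rr s ^ N * (Real.sqrt ‖s - 1‖ + Real.sqrt ‖s - 1‖⁻¹)) := by
  obtain ⟨C₀, hC₀, hL⟩ := landau_log
  obtain ⟨C₁, hC₁, hlog⟩ := log_pow_le N
  obtain ⟨A₀, hA₀, hb₀⟩ := exists_log_bound K hK B E N c hc 1 le_rfl
  obtain ⟨A₁, hA₁, hb₁⟩ := exists_log_bound K hK B E N c' hc' 2 one_le_two
  have hcard : ∀ s, s ≠ 0 → s ≠ 1 → Multiset.card (V s) = N := by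
    intro s hs0 hs1
    obtain ⟨T, hTN, -, hTV⟩ := hV s (rr s) (rr_pos hs0 hs1) ball_rr
    rw [hTV s (Metric.mem_ball_self (rr_pos hs0 hs1)), Multiset.card_map, hTN]
  have gen : ∀ (A : ℝ) (c : ℂ) (s t : ℂ), 0 < A → 0 < rr s → t ≠ 0 →
      (C₀ / rr s * (1 + (A * (1 + |Real.log ‖t‖|) - 1))) ^ N * ‖c * t ^ E‖ ≤
      (C₀ * A) ^ N * ‖c‖ * C₁ * (‖t‖ ^ E / rr s ^ N * (Real.sqrt ‖t‖ + Real.sqrt ‖t‖⁻¹)) := by
    intro A c s t hA hr ht
    have h2 := hlog ‖t‖ (norm_pos_iff.2 ht)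
    have h3 : (C₀ / rr s * (1 + (A * (1 + |Real.log ‖t‖|) - 1))) ^ N * ‖c * t ^ E‖ =
        ((C₀ * A) ^ N * ‖c‖ * (‖t‖ ^ E / rr s ^ N)) * (1 + |Real.log ‖t‖|) ^ N := by
      rw [norm_mul, norm_pow]
      have : C₀ / rr s * (1 + (A * (1 + |Real.log ‖t‖|) - 1)) = (C₀ * A) * (1 + |Real.log ‖t‖|) / rr s := by ring
      rw [this, div_pow, mul_pow]
      ring
    rw [h3]
    calc _ ≤ ((C₀ * A) ^ N * ‖c‖ * (‖t‖ ^ E / rr s ^ N)) * (C₁ * (Real.sqrt ‖t‖ + Real.sqrt ‖t‖⁻¹)) :=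
          mul_le_mul_of_nonneg_left h2 (by positivity)
      _ = _ := by ring
  refine ⟨max ((C₀ * A₀) ^ N * ‖c‖ * C₁) ((C₀ * A₁) ^ N * ‖c'‖ * C₁), ?_, ?_⟩
  · have := norm_pos_iff.2 hc
    exact lt_max_of_lt_left (by positivity)
  intro s hs0 hs1
  have hr := rr_pos hs0 hs1
  have hs1' : s - 1 ≠ 0 := sub_ne_zero.2 hs1
  have hbd := DD_bound hV hC₀ hL hne hs0 hs1
  constructor
  · have h2 := hbd.1 (A₀ * (1 + |Real.log ‖s‖|) - 1) (hb₀ ‖s‖ s (norm_pos_iff.2 hs0) rfl (V s) (hcard s hs0 hs1)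
      (hne s hs0 hs1).1 (fun y hy => by
        have h3 := hB s hs0 hs1 y hy
        have h4 : 0 ≤ K * (1 + ‖s‖) ^ B := by positivity
        linarith) (h0 s hs0 hs1))
    rw [h0 s hs0 hs1] at h2
    refine h2.trans ((gen A₀ c s s hA₀ hr hs0).trans (mul_le_mul_of_nonneg_right (le_max_left _ _) (by positivity)))
  · have h2 := hbd.2 (A₁ * (1 + |Real.log ‖s - 1‖|) - 1) (fun y hy => hb₁ ‖s - 1‖ (s - 1) (norm_pos_iff.2 hs1') rfl
      ((V s).map fun y => 1 - y) (by rw [Multiset.card_map, hcard s hs0 hs1]) (by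
        intro hh
        obtain ⟨z, hz, hz1⟩ := Multiset.mem_map.1 hh
        have : z = 1 := (sub_eq_zero.1 hz1).symm
        exact (hne s hs0 hs1).2 (this ▸ hz)) (by
        intro y' hy'
        obtain ⟨z, hz, rfl⟩ := Multiset.mem_map.1 hy'
        have h3 := hB s hs0 hs1 z hz
        have h5 : ‖s‖ ≤ ‖s - 1‖ + 1 := by
          calc ‖s‖ = ‖(s - 1) + 1‖ := by ring_nf
            _ ≤ ‖s - 1‖ + ‖(1 : ℂ)‖ := norm_add_le _ _
            _ = _ := by rw [norm_one]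
        have h6 : (1 + ‖s‖) ^ B ≤ (2 + ‖s - 1‖) ^ B := pow_le_pow_left₀ (by positivity) (by linarith) B
        have h7 : 1 ≤ (2 + ‖s - 1‖) ^ B := one_le_pow₀ (by linarith [norm_nonneg (s - 1)])
        calc ‖1 - z‖ ≤ ‖(1 : ℂ)‖ + ‖z‖ := norm_sub_le _ _
          _ ≤ 1 + K * (1 + ‖s‖) ^ B := by rw [norm_one]; linarith
          _ ≤ K * (2 + ‖s - 1‖) ^ B + K * (2 + ‖s - 1‖) ^ B := by nlinarith
          _ = _ := by ring) (h1 s hs0 hs1) (1 - y) (Multiset.mem_map_of_mem (fun y => 1 - y) hy))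
    rw [h1 s hs0 hs1] at h2
    refine h2.trans ((gen A₁ c' s (s - 1) hA₁ hr hs1').trans (mul_le_mul_of_nonneg_right (le_max_right _ _)
      (by positivity)))

private theorem sqrt_tend0 : Tendsto (fun x : ℝ => x * (Real.sqrt x + Real.sqrt x⁻¹)) (𝓝[>] 0) (𝓝 0) := by
  have h1 : Tendsto (fun x : ℝ => x * Real.sqrt x + Real.sqrt x) (𝓝[>] 0) (𝓝 0) := by
    have : Tendsto (fun x : ℝ => x * Real.sqrt x + Real.sqrt x) (𝓝 0) (𝓝 (0 * Real.sqrt 0 + Real.sqrt 0)) :=
      ((continuous_id.mul Real.continuous_sqrt).add Real.continuous_sqrt).tendsto 0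
    rw [Real.sqrt_zero, mul_zero, add_zero] at this
    exact this.mono_left nhdsWithin_le_nhds
  refine h1.congr' ?_
  filter_upwards [self_mem_nhdsWithin] with x hx
  have hx' : 0 < x := hx
  have h2 : x * Real.sqrt x⁻¹ = Real.sqrt x := by
    rw [Real.sqrt_inv]
    have h3 := Real.mul_self_sqrt hx'.le
    have h4 : Real.sqrt x ≠ 0 := (Real.sqrt_pos.2 hx').ne'
    field_simp
    nlinarith
  rw [mul_add, h2]

private theorem near_p (p : ℂ) (F : ℂ → ℂ) (C : ℝ)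
    (h : ∀ᶠ s in 𝓝[≠] p, ‖F s‖ ≤ C * (Real.sqrt ‖s - p‖ + Real.sqrt ‖s - p‖⁻¹)) :
    Tendsto (fun s => (s - p) * F s) (𝓝[≠] p) (𝓝 0) := by
  have h1 : Tendsto (fun s : ℂ => ‖s - p‖) (𝓝[≠] p) (𝓝[>] 0) := by
    apply tendsto_nhdsWithin_of_tendsto_nhds_of_eventually_within
    · have : Tendsto (fun s : ℂ => ‖s - p‖) (𝓝 p) (𝓝 ‖p - p‖) := Continuous.tendsto (by fun_prop) p
      rw [sub_self, norm_zero] at this
      exact this.mono_left nhdsWithin_le_nhds
    · filter_upwards [self_mem_nhdsWithin] with s hs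
      exact norm_pos_iff.2 (sub_ne_zero.2 hs)
  have h2 := (sqrt_tend0.comp h1).const_mul C
  rw [mul_zero] at h2
  apply squeeze_zero_norm' _ h2
  filter_upwards [h] with s hs
  rw [norm_mul]
  calc ‖s - p‖ * ‖F s‖ ≤ ‖s - p‖ * (C * (Real.sqrt ‖s - p‖ + Real.sqrt ‖s - p‖⁻¹)) :=
        mul_le_mul_of_nonneg_left hs (norm_nonneg _)
    _ = _ := by simp only [Function.comp]; ring

theorem DD_zero (hV : FinV {0, 1} N V) (E : ℕ) (hE : N < E) (C : ℝ) (hC : 0 < C)
    (hb : ∀ s, s ≠ 0 → s ≠ 1 →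
      ‖DD hV s‖ ≤ C * (‖s‖ ^ E / rr s ^ N * (Real.sqrt ‖s‖ + Real.sqrt ‖s‖⁻¹)) ∧
      ‖DD hV s‖ ≤ C * (‖s - 1‖ ^ E / rr s ^ N * (Real.sqrt ‖s - 1‖ + Real.sqrt ‖s - 1‖⁻¹))) :
    ∀ s, s ≠ 0 → s ≠ 1 → DD hV s = 0 := by
  obtain ⟨e, he⟩ : ∃ e, E = N + e := ⟨E - N, by omega⟩
  have he0 : 0 < e := by omega
  have hcompl : ((({0, 1} : Finset ℂ) : Set ℂ))ᶜ = ({0, 1} : Set ℂ)ᶜ := by simp
  have hdiff : DifferentiableOn ℂ (fun s => DD hV s / (s * (s - 1)) ^ e) ({0, 1} : Set ℂ)ᶜ := by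
    apply (DD_diff hV).div (by fun_prop)
    intro s hs
    have := mem01.1 hs
    exact pow_ne_zero _ (mul_ne_zero this.1 (sub_ne_zero.2 this.2))
  -- large `s`
  have hinf : ∀ s : ℂ, 2 ≤ ‖s‖ → ‖DD hV s / (s * (s - 1)) ^ e‖ ≤ (C * 2 ^ E * 2) * (1 / Real.sqrt ‖s‖) := by
    intro s hs
    have hs0 : s ≠ 0 := by
      rintro rfl
      rw [norm_zero] at hs
      linarith
    have hs1 : s ≠ 1 := by
      rintro rfl
      rw [norm_one] at hs
      linarith
    have h1 : ‖s‖ / 2 ≤ ‖s - 1‖ := by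
      have : ‖s‖ ≤ ‖s - 1‖ + ‖(1 : ℂ)‖ := by
        calc ‖s‖ = ‖(s - 1) + 1‖ := by ring_nf
          _ ≤ _ := norm_add_le _ _
      rw [norm_one] at this
      linarith
    have h2 : ‖s‖ / 2 ≤ rr s := le_min (by linarith) h1
    have h3 := (hb s hs0 hs1).1
    have hx : 0 < ‖s‖ := by linarith
    rw [norm_div, norm_pow, norm_mul, div_le_iff₀ (by
      have := norm_pos_iff.2 (sub_ne_zero.2 hs1)
      positivity)]
    refine h3.trans ?_
    have h4 : ‖s‖ ^ E / rr s ^ N ≤ ‖s‖ ^ E / (‖s‖ / 2) ^ N := by gcongr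
    have h5 : Real.sqrt ‖s‖ + Real.sqrt ‖s‖⁻¹ ≤ 2 * Real.sqrt ‖s‖ := by
      have : Real.sqrt ‖s‖⁻¹ ≤ Real.sqrt ‖s‖ := by
        apply Real.sqrt_le_sqrt
        have : ‖s‖⁻¹ ≤ 1 := inv_le_one_of_one_le₀ (by linarith)
        linarith
      linarith
    have h6 : (‖s‖ * (‖s‖ / 2)) ^ e ≤ (‖s‖ * ‖s - 1‖) ^ e := by gcongr
    have h7 : Real.sqrt ‖s‖ * Real.sqrt ‖s‖ = ‖s‖ := Real.mul_self_sqrt hx.le
    have h8 : 0 < Real.sqrt ‖s‖ := Real.sqrt_pos.2 hx
    calc C * (‖s‖ ^ E / rr s ^ N * (Real.sqrt ‖s‖ + Real.sqrt ‖s‖⁻¹))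
        ≤ C * (‖s‖ ^ E / (‖s‖ / 2) ^ N * (2 * Real.sqrt ‖s‖)) := by
          apply mul_le_mul_of_nonneg_left _ hC.le
          exact mul_le_mul h4 h5 (by positivity) (by positivity)
      _ = C * 2 * 2 ^ N * ‖s‖ ^ e * Real.sqrt ‖s‖ := by
          rw [he, pow_add, div_pow]
          field_simp
      _ ≤ (C * 2 ^ E * 2) * (1 / Real.sqrt ‖s‖) * (‖s‖ * (‖s‖ / 2)) ^ e := by
          rw [he, pow_add, mul_pow, div_pow]
          have h9 : ‖s‖ ≤ ‖s‖ ^ e := le_self_pow₀ (by linarith) (by omega)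
          have h10 : (C * (2 ^ N * 2 ^ e) * 2) * (1 / Real.sqrt ‖s‖) * (‖s‖ ^ e * (‖s‖ ^ e / 2 ^ e)) =
              C * 2 * 2 ^ N * ‖s‖ ^ e * (‖s‖ ^ e / Real.sqrt ‖s‖) := by
            field_simp
          rw [h10]
          apply mul_le_mul_of_nonneg_left _ (by positivity)
          rw [le_div_iff₀ h8, h7]
          exact h9
      _ ≤ (C * 2 ^ E * 2) * (1 / Real.sqrt ‖s‖) * (‖s‖ * ‖s - 1‖) ^ e :=
          mul_le_mul_of_nonneg_left h6 (by positivity)
  obtain ⟨κ, hκ⟩ := liouville_o {0, 1} (fun s => DD hV s / (s * (s - 1)) ^ e) (by rw [hcompl]; exact hdiff) (by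
    intro p hp
    rw [Finset.mem_insert, Finset.mem_singleton] at hp
    rcases hp with rfl | rfl
    · apply near_p 0 _ (C * 2 ^ e)
      have h1 : ∀ᶠ s in 𝓝[≠] (0 : ℂ), ‖s‖ < 1 / 2 := by
        have : ∀ᶠ s in 𝓝 (0 : ℂ), ‖s‖ < 1 / 2 := by
          filter_upwards [Metric.ball_mem_nhds (0 : ℂ) (by norm_num : (0 : ℝ) < 1 / 2)] with s hs
          simpa using hs
        exact this.filter_mono nhdsWithin_le_nhds
      filter_upwards [h1, self_mem_nhdsWithin] with s hs hs0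
      have hs0 : s ≠ 0 := hs0
      have hs1 : s ≠ 1 := by
        rintro rfl
        rw [norm_one] at hs
        linarith
      have hx := norm_pos_iff.2 hs0
      have h2 : 1 / 2 ≤ ‖s - 1‖ := by
        have : ‖(1 : ℂ)‖ ≤ ‖s - 1‖ + ‖s‖ := by
          calc ‖(1 : ℂ)‖ = ‖s - (s - 1)‖ := by ring_nf
            _ ≤ ‖s‖ + ‖s - 1‖ := norm_sub_le _ _
            _ = _ := add_comm _ _
        rw [norm_one] at this
        linarith
      have hr : rr s = ‖s‖ := min_eq_left (by linarith)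
      have h3 := (hb s hs0 hs1).1
      rw [hr, he, pow_add, mul_div_assoc, mul_comm (‖s‖ ^ N), div_mul_cancel₀ _ (by positivity)] at h3
      rw [sub_zero, norm_div, norm_pow, norm_mul, div_le_iff₀ (by positivity)]
      refine h3.trans ?_
      have h4 : (1 / 2 : ℝ) ^ e ≤ ‖s - 1‖ ^ e := by gcongr
      have h5 : (1 : ℝ) ≤ 2 ^ e * ‖s - 1‖ ^ e := by
        calc (1 : ℝ) = 2 ^ e * (1 / 2) ^ e := by rw [← mul_pow]; norm_num
          _ ≤ _ := mul_le_mul_of_nonneg_left h4 (by positivity)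
      rw [mul_pow]
      calc C * (‖s‖ ^ e * (Real.sqrt ‖s‖ + Real.sqrt ‖s‖⁻¹))
          = (C * (‖s‖ ^ e * (Real.sqrt ‖s‖ + Real.sqrt ‖s‖⁻¹))) * 1 := by ring
        _ ≤ (C * (‖s‖ ^ e * (Real.sqrt ‖s‖ + Real.sqrt ‖s‖⁻¹))) * (2 ^ e * ‖s - 1‖ ^ e) :=
            mul_le_mul_of_nonneg_left h5 (by positivity)
        _ = _ := by ring
    · apply near_p 1 _ (C * 2 ^ e)
      have h1 : ∀ᶠ s in 𝓝[≠] (1 : ℂ), ‖s - 1‖ < 1 / 2 := by
        have : ∀ᶠ s in 𝓝 (1 : ℂ), ‖s - 1‖ < 1 / 2 := by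
          filter_upwards [Metric.ball_mem_nhds (1 : ℂ) (by norm_num : (0 : ℝ) < 1 / 2)] with s hs
          simpa [dist_eq_norm] using hs
        exact this.filter_mono nhdsWithin_le_nhds
      filter_upwards [h1, self_mem_nhdsWithin] with s hs hs1
      have hs1 : s ≠ 1 := hs1
      have hs0 : s ≠ 0 := by
        rintro rfl
        rw [zero_sub, norm_neg, norm_one] at hs
        linarith
      have hx := norm_pos_iff.2 (sub_ne_zero.2 hs1)
      have h2 : 1 / 2 ≤ ‖s‖ := by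
        have : ‖(1 : ℂ)‖ ≤ ‖s - 1‖ + ‖s‖ := by
          calc ‖(1 : ℂ)‖ = ‖s - (s - 1)‖ := by ring_nf
            _ ≤ ‖s‖ + ‖s - 1‖ := norm_sub_le _ _
            _ = _ := add_comm _ _
        rw [norm_one] at this
        linarith
      have hr : rr s = ‖s - 1‖ := min_eq_right (by linarith)
      have h3 := (hb s hs0 hs1).2
      rw [hr, he, pow_add, mul_div_assoc, mul_comm (‖s - 1‖ ^ N), div_mul_cancel₀ _ (by positivity)] at h3
      rw [norm_div, norm_pow, norm_mul, div_le_iff₀ (by positivity)]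
      refine h3.trans ?_
      have h4 : (1 / 2 : ℝ) ^ e ≤ ‖s‖ ^ e := by gcongr
      have h5 : (1 : ℝ) ≤ 2 ^ e * ‖s‖ ^ e := by
        calc (1 : ℝ) = 2 ^ e * (1 / 2) ^ e := by rw [← mul_pow]; norm_num
          _ ≤ _ := mul_le_mul_of_nonneg_left h4 (by positivity)
      rw [mul_pow]
      calc C * (‖s - 1‖ ^ e * (Real.sqrt ‖s - 1‖ + Real.sqrt ‖s - 1‖⁻¹))
          = (C * (‖s - 1‖ ^ e * (Real.sqrt ‖s - 1‖ + Real.sqrt ‖s - 1‖⁻¹))) * 1 := by ring
        _ ≤ (C * (‖s - 1‖ ^ e * (Real.sqrt ‖s - 1‖ + Real.sqrt ‖s - 1‖⁻¹))) * (2 ^ e * ‖s‖ ^ e) :=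
            mul_le_mul_of_nonneg_left h5 (by positivity)
        _ = _ := by ring) ⟨(C * 2 ^ E * 2), 2, by
    intro s _ hs
    refine (hinf s hs).trans ?_
    have : 1 / Real.sqrt ‖s‖ ≤ 1 := by
      rw [div_le_one (Real.sqrt_pos.2 (by linarith))]
      exact Real.one_le_sqrt.2 (by linarith)
    calc _ ≤ (C * 2 ^ E * 2) * 1 := mul_le_mul_of_nonneg_left this (by positivity)
      _ = _ := mul_one _⟩
  have hκ0 : κ = 0 := by
    have h1 : Tendsto (fun t : ℝ => (C * 2 ^ E * 2) * (1 / Real.sqrt t)) atTop (𝓝 0) := by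
      have h2 : Tendsto (fun t : ℝ => 1 / Real.sqrt t) atTop (𝓝 0) := by
        simp only [one_div]
        exact tendsto_inv_atTop_zero.comp Real.tendsto_sqrt_atTop
      have := h2.const_mul (C * 2 ^ E * 2)
      rwa [mul_zero] at this
    have h3 : ∀ᶠ t : ℝ in atTop, ‖κ‖ ≤ (C * 2 ^ E * 2) * (1 / Real.sqrt t) := by
      filter_upwards [eventually_ge_atTop 2] with t ht
      have ht2 : (2 : ℝ) ≤ ‖(t : ℂ)‖ := by
        rw [Complex.norm_real, Real.norm_of_nonneg (by linarith)]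
        exact ht
      have h4 := hinf t ht2
      rw [hκ t (by
        simp only [Finset.mem_insert, Finset.mem_singleton, not_or]
        constructor
        · intro h
          rw [h, norm_zero] at ht2
          linarith
        · intro h
          rw [h, norm_one] at ht2
          linarith), Complex.norm_real, Real.norm_of_nonneg (by linarith : (0 : ℝ) ≤ t)] at h4
      exact h4
    have h5 := ge_of_tendsto h1 h3
    exact norm_le_zero_iff.1 h5
  intro s hs0 hs1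
  have h1 := hκ s (by simp [hs0, hs1])
  rw [hκ0] at h1
  rcases div_eq_zero_iff.1 h1 with h2 | h2
  · exact h2
  · exact absurd h2 (pow_ne_zero _ (mul_ne_zero hs0 (sub_ne_zero.2 hs1)))

theorem isPreconnected_compl01 : IsPreconnected (({0, 1} : Set ℂ)ᶜ) :=
  (Set.Countable.isConnected_compl_of_one_lt_rank (by simp [Complex.rank_real_complex])
    (Set.toFinite ({0, 1} : Set ℂ)).countable).isPreconnected

/-- The derivative count. -/
theorem deriv_count : ∀ (N : ℕ) (V : ℂ → Multiset ℂ), FinV {0, 1} N V →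
    (∀ s, s ≠ 0 → s ≠ 1 → (0 : ℂ) ∉ V s ∧ (1 : ℂ) ∉ V s) → ∀ (K : ℝ) (B : ℕ),
    (∀ s, s ≠ 0 → s ≠ 1 → ∀ y ∈ V s, ‖y‖ ≤ K * (1 + ‖s‖) ^ B) → ∀ (E : ℕ) (c c' : ℂ), c ≠ 0 → c' ≠ 0 →
    (∀ s, s ≠ 0 → s ≠ 1 → (V s).prod = c * s ^ E) →
    (∀ s, s ≠ 0 → s ≠ 1 → ((V s).map fun y => 1 - y).prod = c' * (s - 1) ^ E) → E ≤ N := by
  intro N
  induction N with
  | zero =>
    intro V hV _ K B _ E c c' hc _ h0 _
    have h1 : ∀ s, s ≠ 0 → s ≠ 1 → c * s ^ E = 1 := by
      intro s hs0 hs1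
      rw [← h0 s hs0 hs1]
      obtain ⟨T, hTN, -, hTV⟩ := hV s (rr s) (rr_pos hs0 hs1) ball_rr
      rw [hTV s (Metric.mem_ball_self (rr_pos hs0 hs1)), Multiset.card_eq_zero.1 hTN]
      simp
    have h2 := h1 2 (by norm_num) (by norm_num)
    have h3 := h1 4 (by norm_num) (by norm_num)
    have h4 : (2 : ℂ) ^ E = 4 ^ E := by
      have : c * 2 ^ E = c * 4 ^ E := by rw [h2, h3]
      exact mul_left_cancel₀ hc this
    have h5 : (2 : ℕ) ^ E = 4 ^ E := by exact_mod_cast h4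
    rcases Nat.eq_zero_or_pos E with h | h
    · exact h.le
    · exact absurd h5 (Nat.pow_lt_pow_left (by norm_num) (by omega)).ne
  | succ N ih =>
    intro V hV hne K B hB E c c' hc hc' h0 h1
    by_contra hE
    push Not at hE
    have hB' : ∀ s, s ≠ 0 → s ≠ 1 → ∀ y ∈ V s, ‖y‖ ≤ max K 1 * (1 + ‖s‖) ^ B := by
      intro s hs0 hs1 y hy
      exact (hB s hs0 hs1 y hy).trans (mul_le_mul_of_nonneg_right (le_max_left _ _) (by positivity))
    obtain ⟨C, hC, hb⟩ := DD_bound2 hV hne (max K 1) (le_max_right _ _) B hB' E c c' hc hc' h0 h1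
    have hD := DD_zero hV E hE C hC hb
    -- a constant branch
    have hball : Metric.ball (3 : ℂ) 1 ⊆ ({0, 1} : Set ℂ)ᶜ := by
      intro z hz hz'
      rw [Metric.mem_ball, dist_eq_norm] at hz
      rcases hz' with rfl | hz'
      · norm_num at hz
      · rw [Set.mem_singleton_iff] at hz'
        subst hz'
        norm_num at hz
    obtain ⟨T, hTN, hT, hTV⟩ := hV 3 1 one_pos hball
    obtain ⟨f', hf', hf0⟩ := exists_zero_of_prod_zero Metric.isOpen_ball (convex_ball (3 : ℂ) 1).isPreconnected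
      (T.map deriv) (by
        intro f' hf'
        obtain ⟨f, hf, rfl⟩ := Multiset.mem_map.1 hf'
        exact (hT f hf).deriv Metric.isOpen_ball) ⟨3, Metric.mem_ball_self one_pos⟩ (by
        intro s hs
        have h2 := mem01.1 (hball hs)
        have h3 := hD s h2.1 h2.2
        rw [DD_eq hV hball hT hTV hs] at h3
        rw [Multiset.map_map]
        exact h3)
    obtain ⟨f, hf, rfl⟩ := Multiset.mem_map.1 hf'
    have hfc : ∀ s ∈ Metric.ball (3 : ℂ) 1, f s = f 3 := by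
      intro s hs
      exact Metric.isOpen_ball.is_const_of_deriv_eq_zero (convex_ball (3 : ℂ) 1).isPreconnected (hT f hf)
        (fun x hx => hf0 x hx) hs (Metric.mem_ball_self one_pos)
    obtain ⟨y, hy⟩ : ∃ y, f 3 = y := ⟨_, rfl⟩
    rw [hy] at hfc
    have hclosed : IsClosed ({0, 1} : Set ℂ) := (Set.toFinite _).isClosed
    have hmem : ∀ s, s ≠ 0 → s ≠ 1 → y ∈ V s := by
      have hd := hV.differentiableOn hclosed (fun _ z => y - z) (by fun_prop)
      have h2 := (hd.analyticOnNhd hclosed.isOpen_compl).eqOn_zero_of_preconnected_of_eventuallyEq_zero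
        isPreconnected_compl01 (hball (Metric.mem_ball_self one_pos)) (by
          filter_upwards [Metric.isOpen_ball.mem_nhds (Metric.mem_ball_self (x := (3 : ℂ)) one_pos)] with s hs
          apply Multiset.prod_eq_zero
          rw [hTV s hs, Multiset.map_map, Multiset.mem_map]
          refine ⟨f, hf, ?_⟩
          simp only [Function.comp]
          rw [hfc s hs, sub_self])
      intro s hs0 hs1
      have h3 := h2 (mem01.2 ⟨hs0, hs1⟩)
      have h4 : ((V s).map fun z => y - z).prod = 0 := h3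
      rw [Multiset.prod_eq_zero_iff, Multiset.mem_map] at h4
      obtain ⟨z, hz, hz0⟩ := h4
      rw [sub_eq_zero.1 hz0]
      exact hz
    have hy0 : y ≠ 0 := fun h => (hne 3 (by norm_num) (by norm_num)).1 (h ▸ hmem 3 (by norm_num) (by norm_num))
    have hy1 : y ≠ 1 := fun h => (hne 3 (by norm_num) (by norm_num)).2 (h ▸ hmem 3 (by norm_num) (by norm_num))
    have hcons : ∀ s, s ≠ 0 → s ≠ 1 → V s = y ::ₘ (V s).erase y := fun s hs0 hs1 =>
      (Multiset.cons_erase (hmem s hs0 hs1)).symm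
    have hV' : FinV {0, 1} N fun s => (V s).erase y := by
      intro s₀ r hr hb
      obtain ⟨T, hTN, hT, hTV⟩ := hV s₀ r hr hb
      obtain ⟨g, hg, hgy⟩ := exists_eq_of_mem Metric.isOpen_ball (convex_ball s₀ r).isPreconnected T hT
        ⟨s₀, Metric.mem_ball_self hr⟩ (fun _ => y) (differentiableOn_const y) (by
          intro s hs
          have h2 := mem01.1 (hb hs)
          rw [← hTV s hs]
          exact hmem s h2.1 h2.2)
      obtain ⟨T', rfl⟩ := Multiset.exists_cons_of_mem hg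
      refine ⟨T', ?_, fun f hf => hT f (Multiset.mem_cons_of_mem hf), ?_⟩
      · rw [Multiset.card_cons] at hTN
        omega
      · intro s hs
        show (V s).erase y = _
        rw [hTV s hs, Multiset.map_cons, hgy s hs, Multiset.erase_cons_head]
    have hsub : ∀ s z, z ∈ (V s).erase y → z ∈ V s := fun s z hz => Multiset.mem_of_mem_erase hz
    have := ih (fun s => (V s).erase y) hV' (fun s hs0 hs1 => ⟨fun h => (hne s hs0 hs1).1 (hsub s _ h),
      fun h => (hne s hs0 hs1).2 (hsub s _ h)⟩) K B (fun s hs0 hs1 z hz => hB s hs0 hs1 z (hsub s z hz)) E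
      (c / y) (c' / (1 - y)) (div_ne_zero hc hy0) (div_ne_zero hc' (sub_ne_zero.2 (Ne.symm hy1))) (by
        intro s hs0 hs1
        have h2 := h0 s hs0 hs1
        rw [hcons s hs0 hs1, Multiset.prod_cons] at h2
        show ((V s).erase y).prod = _
        field_simp
        linear_combination h2) (by
        intro s hs0 hs1
        have h2 := h1 s hs0 hs1
        rw [hcons s hs0 hs1, Multiset.map_cons, Multiset.prod_cons] at h2
        show (((V s).erase y).map fun y => 1 - y).prod = _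
        have h3 : (1 : ℂ) - y ≠ 0 := sub_ne_zero.2 (Ne.symm hy1)
        field_simp
        linear_combination h2)
    omega

end Pool.Agent.Helper42.LN5
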