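import Mathlib

/-!
# LN5 (MP_730da0_ag): finite-valued holomorphic functions, Liouville's theorem
-/

namespace Pool.Agent.Helper42.LN5

open Filter Topology

/-- `V` is a finite-valued holomorphic function with `N` branches on the complement of `P`. -/
def FinV (P : Set ℂ) (N : ℕ) (V : ℂ → Multiset ℂ) : Prop :=
  ∀ (s₀ : ℂ) (r : ℝ), 0 < r → Metric.ball s₀ r ⊆ Pᶜ → ∃ T : Multiset (ℂ → ℂ), Multiset.card T = N ∧
    (∀ f ∈ T, DifferentiableOn ℂ f (Metric.ball s₀ r)) ∧
    ∀ s ∈ Metric.ball s₀ r, V s = T.map (fun f => f s)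

theorem differentiableOn_map_prod {U : Set ℂ} (T : Multiset (ℂ → ℂ)) (hT : ∀ f ∈ T, DifferentiableOn ℂ f U) :
    DifferentiableOn ℂ (fun s => (T.map (fun f => f s)).prod) U := by
  induction T using Multiset.induction_on with
  | empty => simp
  | cons f T ih =>
    simp only [Multiset.map_cons, Multiset.prod_cons]
    exact (hT f (Multiset.mem_cons_self f T)).mul (ih fun g hg => hT g (Multiset.mem_cons_of_mem hg))

theorem exists_zero_of_prod_zero {U : Set ℂ} (hU : IsOpen U) (hU' : IsPreconnected U) (T : Multiset (ℂ → ℂ))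
    (hT : ∀ f ∈ T, DifferentiableOn ℂ f U) (hne : U.Nonempty)
    (h : ∀ s ∈ U, (T.map (fun f => f s)).prod = 0) : ∃ f ∈ T, ∀ s ∈ U, f s = 0 := by
  induction T using Multiset.induction_on with
  | empty =>
    obtain ⟨s, hs⟩ := hne
    simpa using h s hs
  | cons f T ih =>
    have h1 : AnalyticOnNhd ℂ f U := (hT f (Multiset.mem_cons_self f T)).analyticOnNhd hU
    have h2 : AnalyticOnNhd ℂ (fun s => (T.map (fun f => f s)).prod) U :=
      (differentiableOn_map_prod T fun g hg => hT g (Multiset.mem_cons_of_mem hg)).analyticOnNhd hU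
    have h3 : ∀ s ∈ U, f s * (T.map (fun f => f s)).prod = 0 := by
      intro s hs
      have := h s hs
      rwa [Multiset.map_cons, Multiset.prod_cons] at this
    rcases AnalyticOnNhd.eq_zero_or_eq_zero_of_mul_eq_zero h1 h2 h3 hU' with h4 | h4
    · exact ⟨f, Multiset.mem_cons_self f T, h4⟩
    · obtain ⟨g, hg, hg0⟩ := ih (fun g hg => hT g (Multiset.mem_cons_of_mem hg)) h4
      exact ⟨g, Multiset.mem_cons_of_mem hg, hg0⟩

/-- If the product of `w - f` vanishes identically then some `f` is the constant `w`. -/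
theorem exists_eq_of_mem {U : Set ℂ} (hU : IsOpen U) (hU' : IsPreconnected U) (T : Multiset (ℂ → ℂ))
    (hT : ∀ f ∈ T, DifferentiableOn ℂ f U) (hne : U.Nonempty) (g : ℂ → ℂ) (hg : DifferentiableOn ℂ g U)
    (h : ∀ s ∈ U, g s ∈ T.map (fun f => f s)) : ∃ f ∈ T, ∀ s ∈ U, f s = g s := by
  obtain ⟨f', hf', h0⟩ := exists_zero_of_prod_zero hU hU' (T.map (fun f => fun s => g s - f s)) (by
    intro f' hf'
    obtain ⟨f, hf, rfl⟩ := Multiset.mem_map.1 hf'
    exact hg.sub (hT f hf)) hne (by
    intro s hs
    obtain ⟨f, hf, hfs⟩ := Multiset.mem_map.1 (h s hs)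
    rw [Multiset.map_map]
    apply Multiset.prod_eq_zero
    rw [Multiset.mem_map]
    refine ⟨f, hf, ?_⟩
    simp only [Function.comp]
    rw [hfs, sub_self])
  obtain ⟨f, hf, rfl⟩ := Multiset.mem_map.1 hf'
  exact ⟨f, hf, fun s hs => (sub_eq_zero.1 (h0 s hs)).symm⟩

/-- Two families of holomorphic functions with the same values have the same derivatives. -/
theorem map_deriv_eq {U : Set ℂ} (hU : IsOpen U) (hU' : IsPreconnected U) (T : Multiset (ℂ → ℂ)) :
    ∀ T' : Multiset (ℂ → ℂ), (∀ f ∈ T, DifferentiableOn ℂ f U) → (∀ f ∈ T', DifferentiableOn ℂ f U) →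
    (∀ s ∈ U, T.map (fun f => f s) = T'.map (fun f => f s)) →
    ∀ s ∈ U, T.map (fun f => deriv f s) = T'.map (fun f => deriv f s) := by
  induction T using Multiset.induction_on with
  | empty =>
    intro T' _ _ h s hs
    have h1 := congrArg Multiset.card (h s hs)
    simp only [Multiset.map_zero, Multiset.card_zero, Multiset.card_map] at h1
    rw [Multiset.card_eq_zero.1 h1.symm]
  | cons f T ih =>
    intro T' hT hT' h s hs
    obtain ⟨g, hg, hgf⟩ := exists_eq_of_mem hU hU' T' hT' ⟨s, hs⟩ f (hT f (Multiset.mem_cons_self f T)) (by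
      intro t ht
      rw [← h t ht]
      exact Multiset.mem_map_of_mem (fun f => f t) (Multiset.mem_cons_self f T))
    obtain ⟨T'', rfl⟩ := Multiset.exists_cons_of_mem hg
    have h1 := ih T'' (fun g hg => hT g (Multiset.mem_cons_of_mem hg))
      (fun g hg => hT' g (Multiset.mem_cons_of_mem hg)) (by
        intro t ht
        have := h t ht
        rw [Multiset.map_cons, Multiset.map_cons, hgf t ht] at this
        exact (Multiset.cons_inj_right _).1 this) s hs
    rw [Multiset.map_cons, Multiset.map_cons, h1]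
    congr 1
    apply Filter.EventuallyEq.deriv_eq
    filter_upwards [hU.mem_nhds hs] with t ht
    exact (hgf t ht).symm

/-- Liouville's theorem with finitely many mild singularities. -/
theorem liouville_o (P : Finset ℂ) : ∀ f : ℂ → ℂ, DifferentiableOn ℂ f ((P : Set ℂ)ᶜ) →
    (∀ p ∈ P, Tendsto (fun s => (s - p) * f s) (𝓝[≠] p) (𝓝 0)) →
    (∃ C R : ℝ, ∀ s ∉ P, R ≤ ‖s‖ → ‖f s‖ ≤ C) → ∃ c, ∀ s ∉ P, f s = c := by
  classical
  induction P using Finset.induction_on with
  | empty =>
    intro f hf _ ⟨C, R, hC⟩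
    have hfd : Differentiable ℂ f := by
      rw [← differentiableOn_univ]
      simpa using hf
    have hb : Bornology.IsBounded (Set.range f) := by
      have h1 : IsCompact (f '' Metric.closedBall 0 R) :=
        (isCompact_closedBall 0 R).image hfd.continuous
      obtain ⟨C', hC'⟩ := h1.isBounded.exists_norm_le
      refine (isBounded_iff_forall_norm_le).2 ⟨max C C', ?_⟩
      rintro _ ⟨s, rfl⟩
      by_cases hs : R ≤ ‖s‖
      · exact (hC s (by simp) hs).trans (le_max_left _ _)
      · refine (hC' _ ⟨s, ?_, rfl⟩).trans (le_max_right _ _)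
        rw [mem_closedBall_zero_iff]
        exact (not_le.1 hs).le
    exact ⟨f 0, fun s _ => hfd.apply_eq_apply_of_bounded hb s 0⟩
  | insert p P hp ih =>
    intro f hf ho ⟨C, R, hC⟩
    have hPo : IsOpen ((P : Set ℂ)ᶜ) := P.finite_toSet.isClosed.isOpen_compl
    have hset : ((P : Set ℂ)ᶜ) \ {p} = ((insert p P : Finset ℂ) : Set ℂ)ᶜ := by
      ext x
      simp only [Set.mem_sdiff, Set.mem_compl_iff, Finset.mem_coe, Set.mem_singleton_iff,
        Finset.mem_insert, not_or]
      tauto
    have h1 := Complex.differentiableOn_update_limUnder_of_isLittleO (f := f) (s := (P : Set ℂ)ᶜ) (c := p)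
      (hPo.mem_nhds (by simpa using hp)) (by rw [hset]; exact hf) (by
        rw [Asymptotics.isLittleO_iff_tendsto']
        · have h2 := ho p (Finset.mem_insert_self p P)
          have h3 : Tendsto (fun s => (s - p) * f p) (𝓝[≠] p) (𝓝 0) := by
            have : Tendsto (fun s => (s - p) * f p) (𝓝 p) (𝓝 ((p - p) * f p)) :=
              ((continuous_id.sub continuous_const).mul continuous_const).tendsto p
            rw [sub_self, zero_mul] at this
            exact this.mono_left nhdsWithin_le_nhds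
          have h4 := h2.sub h3
          rw [sub_zero] at h4
          refine h4.congr fun s => ?_
          rw [div_inv_eq_mul]
          ring
        · filter_upwards [self_mem_nhdsWithin] with s hs h
          exact absurd (inv_eq_zero.1 h) (sub_ne_zero.2 hs))
    obtain ⟨c, hc⟩ := ih _ h1 (by
      intro q hq
      have hqp : q ≠ p := fun h => hp (h ▸ hq)
      refine (ho q (Finset.mem_insert_of_mem hq)).congr' ?_
      have : ∀ᶠ s in 𝓝 q, s ≠ p := (isOpen_ne.mem_nhds hqp)
      filter_upwards [this.filter_mono nhdsWithin_le_nhds] with s hs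
      rw [Function.update_of_ne hs]) ⟨max C ‖limUnder (𝓝[≠] p) f‖, R, by
      intro s hs hR
      by_cases hsp : s = p
      · rw [hsp, Function.update_self]
        exact le_max_right _ _
      · rw [Function.update_of_ne hsp]
        refine (hC s ?_ hR).trans (le_max_left _ _)
        simp [hsp, hs]⟩
    refine ⟨c, fun s hs => ?_⟩
    rw [Finset.mem_insert, not_or] at hs
    rw [← hc s hs.2, Function.update_of_ne hs.1]

theorem FinV.differentiableOn {P : Set ℂ} (hP : IsClosed P) {N : ℕ} {V : ℂ → Multiset ℂ} (hV : FinV P N V)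
    (g : ℂ → ℂ → ℂ) (hg : Differentiable ℂ fun z : ℂ × ℂ => g z.1 z.2) :
    DifferentiableOn ℂ (fun s => ((V s).map (g s)).prod) Pᶜ := by
  intro s hs
  obtain ⟨r, hr, hb⟩ := Metric.isOpen_iff.1 hP.isOpen_compl s hs
  obtain ⟨T, -, hT, hTV⟩ := hV s r hr hb
  apply DifferentiableAt.differentiableWithinAt
  have h1 := differentiableOn_map_prod (U := Metric.ball s r) (T.map (fun f => fun s => g s (f s))) (by
    intro f' hf'
    obtain ⟨f, hf, rfl⟩ := Multiset.mem_map.1 hf'
    exact hg.comp_differentiableOn (differentiableOn_id.prodMk (hT f hf)))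
  have h2 := h1.differentiableAt (Metric.isOpen_ball.mem_nhds (Metric.mem_ball_self hr))
  refine h2.congr_of_eventuallyEq ?_
  filter_upwards [Metric.isOpen_ball.mem_nhds (Metric.mem_ball_self hr)] with t ht
  rw [hTV t ht, Multiset.map_map, Multiset.map_map]
  rfl

/-- Liouville's theorem for finite-valued functions. -/
theorem FinV.liouville {P : Set ℂ} (hP : P.Finite) {N : ℕ} {V : ℂ → Multiset ℂ} (hV : FinV P N V)
    (C : ℝ) (hC : ∀ s ∉ P, ∀ y ∈ V s, ‖y‖ ≤ C) : ∃ V₀, ∀ s ∉ P, V s = V₀ := by
  classical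
  have hcard : ∀ s ∉ P, Multiset.card (V s) = N := by
    intro s hs
    obtain ⟨r, hr, hb⟩ := Metric.isOpen_iff.1 hP.isClosed.isOpen_compl s hs
    obtain ⟨T, hT1, hT, hTV⟩ := hV s r hr hb
    rw [hTV s (Metric.mem_ball_self hr), Multiset.card_map, hT1]
  have key : ∀ w : ℂ, ∃ c, ∀ s ∉ P, ((V s).map fun y => w - y).prod = c := by
    intro w
    have hd := hV.differentiableOn hP.isClosed (fun _ y => w - y) (by fun_prop)
    have hb : ∀ s ∉ P, ‖((V s).map fun y => w - y).prod‖ ≤ (‖w‖ + C) ^ N := by
      intro s hs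
      have h1 : ∀ M : Multiset ℂ, (∀ y ∈ M, ‖y‖ ≤ C) →
          ‖(M.map fun y => w - y).prod‖ ≤ (‖w‖ + C) ^ (Multiset.card M) := by
        intro M
        induction M using Multiset.induction_on with
        | empty => simp
        | cons y M ih =>
          intro hM
          rw [Multiset.map_cons, Multiset.prod_cons, Multiset.card_cons, pow_succ', norm_mul]
          have h3 := hM y (Multiset.mem_cons_self y M)
          have h4 : ‖w - y‖ ≤ ‖w‖ + C := (norm_sub_le _ _).trans (by linarith)
          exact mul_le_mul h4 (ih fun z hz => hM z (Multiset.mem_cons_of_mem hz)) (norm_nonneg _)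
            ((norm_nonneg _).trans h4)
      have := h1 (V s) (hC s hs)
      rwa [hcard s hs] at this
    obtain ⟨c, hc⟩ := liouville_o hP.toFinset (fun s => ((V s).map fun y => w - y).prod) (by simpa using hd) (by
      intro p hp
      apply squeeze_zero_norm' (a := fun s => ‖s - p‖ * (‖w‖ + C) ^ N)
      · have hfin : ∀ᶠ s in 𝓝[≠] p, s ∉ P := by
          have h1 : (P \ {p})ᶜ ∈ 𝓝 p := (hP.subset Set.sdiff_subset).isClosed.isOpen_compl.mem_nhds (by simp)
          filter_upwards [mem_nhdsWithin_of_mem_nhds h1, self_mem_nhdsWithin] with s hs hs' hsP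
          exact hs ⟨hsP, hs'⟩
        filter_upwards [hfin] with s hs
        rw [norm_mul]
        exact mul_le_mul_of_nonneg_left (hb s hs) (norm_nonneg _)
      · have : Tendsto (fun s : ℂ => ‖s - p‖ * (‖w‖ + C) ^ N) (𝓝 p) (𝓝 (‖p - p‖ * (‖w‖ + C) ^ N)) :=
          Continuous.tendsto (by fun_prop) p
        rw [sub_self, norm_zero, zero_mul] at this
        exact this.mono_left nhdsWithin_le_nhds)
      ⟨(‖w‖ + C) ^ N, 0, fun s hs _ => hb s (by simpa using hs)⟩
    exact ⟨c, fun s hs => hc s (by simpa using hs)⟩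
  choose c hc using key
  by_cases hne : ∃ s₀, s₀ ∉ P
  · obtain ⟨s₀, hs₀⟩ := hne
    refine ⟨V s₀, fun s hs => ?_⟩
    have h1 : ((V s).map fun y => Polynomial.X - Polynomial.C y).prod =
        ((V s₀).map fun y => Polynomial.X - Polynomial.C y).prod := by
      apply Polynomial.funext
      intro w
      have h2 : ∀ M : Multiset ℂ, Polynomial.eval w (M.map fun y => Polynomial.X - Polynomial.C y).prod =
          (M.map fun y => w - y).prod := by
        intro M
        rw [Polynomial.eval_multiset_prod, Multiset.map_map]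
        simp
      rw [h2, h2, hc w s hs, hc w s₀ hs₀]
    have h3 := congrArg Polynomial.roots h1
    rwa [Polynomial.roots_multiset_prod_X_sub_C, Polynomial.roots_multiset_prod_X_sub_C] at h3
  · push Not at hne
    exact ⟨0, fun s hs => absurd (hne s) hs⟩

/-- A bounded branch of a bounded finite-valued function is constant. -/
theorem FinV.const {P : Set ℂ} (hP : P.Finite) {N : ℕ} {V : ℂ → Multiset ℂ} (hV : FinV P N V)
    (C : ℝ) (hC : ∀ s ∉ P, ∀ y ∈ V s, ‖y‖ ≤ C) (X : Type) [TopologicalSpace X] [PreconnectedSpace X]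
    (γ : X → ℂ) (hγ : ∀ x, γ x ∉ P) (g : X → ℂ) (hg : Continuous g) (hgV : ∀ x, g x ∈ V (γ x)) :
    ∀ x x', g x = g x' := by
  obtain ⟨V₀, hV₀⟩ := hV.liouville hP C hC
  have hmem : ∀ x, g x ∈ V₀ := fun x => by
    rw [← hV₀ _ (hγ x)]
    exact hgV x
  have hfin : (Set.range g).Finite :=
    (Multiset.finite_toSet V₀).subset (by
      rintro _ ⟨x, rfl⟩
      exact hmem x)
  have hpre : IsPreconnected (Set.range g) := isPreconnected_range hg
  intro x x'
  exact (hfin.countable.isTotallyDisconnected _ subset_rfl hpre) ⟨x, rfl⟩ ⟨x', rfl⟩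

end Pool.Agent.Helper42.LN5
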